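import Pool.Agent.H87.EBK.Stmts3

/-!
Board `ebt`, row FOR: labels of a forest.
-/

set_option autoImplicit false

namespace Pool.EBK

/-- Row FOR. -/
theorem for_thm (hP : STP4) (hL : LEAF) : FOR := by
  intro h p0 hp0
  have key : ∀ n : ℕ, ∀ (V : Type) [Fintype V] (T : SimpleGraph V), Fintype.card V = n →
      T.IsAcyclic → ∀ y1 y2 : V → ℚ, (∀ u, 0 < y1 u) → (∀ u, y1 u < y2 u) →
      ∃ l : V → ℚ, Function.Injective l ∧ (∀ u, y1 u < l u ∧ l u < y2 u ∧ Low h (l u)) ∧
        ∀ u w, T.Adj u w → IsSquare (l u ^ 2 + l w ^ 2) := by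
    intro n
    induction n using Nat.strong_induction_on with
    | _ n ih =>
    intro V _ T hn hT y1 y2 hy1 hy2
    classical
    rcases isEmpty_or_nonempty V with hE | hE
    · exact ⟨fun _ => 1, fun u => (hE.false u).elim, fun u => (hE.false u).elim,
        fun u => (hE.false u).elim⟩
    obtain ⟨z, x, hz⟩ := hL V T hT
    have hcard : Fintype.card {u : V // u ≠ z} < n := by
      rw [← hn]
      exact Fintype.card_subtype_lt (x := z) (by simp)
    obtain ⟨l', h1, h2, h3⟩ := ih _ hcard {u : V // u ≠ z} (T.comap Subtype.val) rfl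
      (hT.of_comap ⟨Subtype.val, Subtype.val_injective⟩) (fun u => y1 u.1) (fun u => y2 u.1)
      (fun u => hy1 u.1) (fun u => hy2 u.1)
    -- the label of `z`
    obtain ⟨q, hqF, hq1, hq2, hqL, hqs⟩ : ∃ q, q ∉ Finset.univ.image l' ∧ y1 z < q ∧ q < y2 z ∧
        Low h q ∧ ∀ u : {u : V // u ≠ z}, T.Adj z u → IsSquare (l' u ^ 2 + q ^ 2) := by
      by_cases hx : T.Adj z x
      · obtain ⟨q, a1, a2, a3, a4, a5⟩ := hP h (l' ⟨x, hx.ne'⟩) (y1 z) (y2 z)
          (Finset.univ.image l') (h2 ⟨x, hx.ne'⟩).2.2 (hy1 z) (hy2 z)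
        refine ⟨q, a1, a2, a3, a5, fun u hu => ?_⟩
        have hu' : u = ⟨x, hx.ne'⟩ := Subtype.ext (hz u hu)
        rw [hu']
        exact a4
      · obtain ⟨q, a1, a2, a3, a4, a5⟩ := hP h p0 (y1 z) (y2 z)
          (Finset.univ.image l') hp0 (hy1 z) (hy2 z)
        refine ⟨q, a1, a2, a3, a5, fun u hu => ?_⟩
        exact absurd (hz u hu ▸ hu) hx
    have hql : ∀ u, l' u ≠ q := fun u hu =>
      hqF (Finset.mem_image.2 ⟨u, Finset.mem_univ u, hu⟩)
    refine ⟨fun u => if hu : u = z then q else l' ⟨u, hu⟩, ?_, ?_, ?_⟩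
    · intro u w huw
      dsimp only at huw
      split_ifs at huw with hu hw hw
      · exact hu.trans hw.symm
      · exact absurd huw.symm (hql _)
      · exact absurd huw (hql _)
      · exact congrArg Subtype.val (h1 huw)
    · intro u
      dsimp only
      split_ifs with hu
      · rw [hu]
        exact ⟨hq1, hq2, hqL⟩
      · exact h2 ⟨u, hu⟩
    · intro u w huw
      dsimp only
      split_ifs with hu hw hw
      · exact absurd (hu.trans hw.symm) huw.ne
      · subst hu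
        rw [add_comm]
        exact hqs ⟨w, hw⟩ huw
      · subst hw
        exact hqs ⟨u, hu⟩ huw.symm
      · exact h3 ⟨u, hu⟩ ⟨w, hw⟩ huw
  intro V _ T hT y1 y2 hy1 hy2
  exact key _ V T rfl hT y1 y2 hy1 hy2

end Pool.EBK
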